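import Pool.Agent.Lib.MP_a78e1f_lc.K.Iface

/-! # ITPF: basic facts on interpretations of names of functions -/

set_option autoImplicit false

universe u

open Cardinal Filter

namespace Pool.Agent.Lib.MP_a78e1f_lc.H92

open Pool.Agent.Lib.MP_100a6c_lc
open Pool.Agent.Lib.MP_e6fef2_lc
open Pool.Agent.Lib.MP_6d445e_gt

theorem countable_in (N : Set El.{u}) (hN : N.Countable) (T : Type u) (p : T → Prop) :
    Countable {t : T // In N t ∧ p t} := by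
  have := hN.to_subtype
  refine Function.Injective.countable
    (f := fun t : {t : T // In N t ∧ p t} => (⟨⟨T, t.1⟩, t.2.1⟩ : N)) ?_
  intro a b h
  have h1 : (⟨T, a.1⟩ : El.{u}) = ⟨T, b.1⟩ := congrArg (fun n : N => n.1) h
  exact Subtype.ext (by simpa using h1)

section

variable {A C : Type u} [CompleteBooleanAlgebra A] [CompleteBooleanAlgebra C]

theorem mem_fv {F : ℕ → ℕ → A} (hF : IsFN F) :
    ∀ᶠ g in ae A, ∀ n k, F n k ∈ g ↔ fv F g n = k := by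
  filter_upwards [hF] with g hg n k
  obtain ⟨k0, h1, h2⟩ := hg n
  have h3 : {k | F n k ∈ g} = {k0} := by
    ext k'
    exact ⟨fun h => h2 k' h, fun h => by rw [Set.mem_singleton_iff.1 h]; exact h1⟩
  have h4 : fv F g n = k0 := by
    unfold fv
    rw [h3]
    exact csInf_singleton k0
  rw [h4]
  exact ⟨fun h => (h2 k h).symm, fun h => h ▸ h1⟩

/-- Membership for suprema and infima over propositions. -/
theorem mem_iSup_prop (g : Ult A) (P : Prop) (a : A) : (⨆ _ : P, a) ∈ g ↔ P ∧ a ∈ g := by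
  by_cases h : P
  · simp [h]
  · simp [h, g.not_bot]

theorem mem_iInf_prop (g : Ult A) (P : Prop) (a : A) : (⨅ _ : P, a) ∈ g ↔ (P → a ∈ g) := by
  by_cases h : P
  · simp [h]
  · simp [h, g.mem_top]

theorem isFN_map {f : A → C} (hf : IsCE f) {Z : ℕ → ℕ → A} (hZ : IsFN Z) :
    IsFN fun p m => f (Z p m) := ae_pull hf hZ

omit [CompleteBooleanAlgebra A] in
theorem mem_agrF' (f : A → C) {Z : ℕ → ℕ → A} {F : ℕ → ℕ → C} (k : ℕ)
    (hZ : IsFN fun p m => f (Z p m)) (hF : IsFN F) :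
    ∀ᶠ h in ae C, agrF f Z F k ∈ h ↔ ∀ p < k, fv (fun n m => f (Z n m)) h p = fv F h p := by
  have e1 := ae_iInf (A := C) fun p : ℕ => ⨅ _ : p < k, ⨆ j, f (Z p j) ⊓ F p j
  have e2 : ∀ᶠ h in ae C, ∀ p : ℕ, (⨆ j, f (Z p j) ⊓ F p j) ∈ h ↔
      ∃ j, f (Z p j) ⊓ F p j ∈ h := ae_all fun p => ae_iSup _
  filter_upwards [e1, e2, mem_fv hZ, mem_fv hF] with h h1 h2 h3 h4
  unfold agrF
  rw [h1]
  refine forall_congr' fun p => ?_
  rw [mem_iInf_prop, h2]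
  refine forall_congr' fun _ => ?_
  constructor
  · rintro ⟨j, hj⟩
    rw [h.mem_inf] at hj
    rw [(h3 p j).1 hj.1, (h4 p j).1 hj.2]
  · intro he
    refine ⟨fv F h p, ?_⟩
    rw [h.mem_inf]
    exact ⟨(h3 p _).2 he, (h4 p _).2 rfl⟩

omit [CompleteBooleanAlgebra A] in
theorem agrF_anti (f : A → C) (Z : ℕ → ℕ → A) (F : ℕ → ℕ → C) {k k' : ℕ} (hk : k ≤ k') :
    agrF f Z F k' ≤ agrF f Z F k :=
  le_iInf₂ fun n hn => (iInf_le _ n).trans (iInf_le _ (lt_of_lt_of_le hn hk))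

theorem mem_capF {S F : ℕ → ℕ → A} (n : ℕ) (hS : IsFN S) (hF : IsFN F) :
    ∀ᶠ g in ae A, capF n S F ∈ g ↔ ∀ p, n ≤ p → dS (fv F g p) ⊆ dS (fv S g p) := by
  have e1 := ae_iInf (A := A) fun p : ℕ => ⨅ _ : n ≤ p, ⨆ i, ⨆ j, ⨆ _ : dS i ⊆ dS j, F p i ⊓ S p j
  have e2 : ∀ᶠ g in ae A, ∀ p : ℕ, (⨆ i, ⨆ j, ⨆ _ : dS i ⊆ dS j, F p i ⊓ S p j) ∈ g ↔
      ∃ i, (⨆ j, ⨆ _ : dS i ⊆ dS j, F p i ⊓ S p j) ∈ g := ae_all fun p => ae_iSup _
  have e3 : ∀ᶠ g in ae A, ∀ p i : ℕ, (⨆ j, ⨆ _ : dS i ⊆ dS j, F p i ⊓ S p j) ∈ g ↔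
      ∃ j, (⨆ _ : dS i ⊆ dS j, F p i ⊓ S p j) ∈ g := ae_all fun p => ae_all fun i => ae_iSup _
  filter_upwards [e1, e2, e3, mem_fv hS, mem_fv hF] with g h1 h2 h3 h4 h5
  unfold capF
  rw [h1]
  refine forall_congr' fun p => ?_
  rw [mem_iInf_prop, h2]
  refine forall_congr' fun _ => ?_
  constructor
  · rintro ⟨i, hi⟩
    rw [h3] at hi
    obtain ⟨j, hj⟩ := hi
    rw [mem_iSup_prop, g.mem_inf] at hj
    rw [(h5 p i).1 hj.2.1, (h4 p j).1 hj.2.2]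
    exact hj.1
  · intro he
    refine ⟨fv F g p, (h3 _ _).2 ⟨fv S g p, ?_⟩⟩
    rw [mem_iSup_prop, g.mem_inf]
    exact ⟨he, (h5 p _).2 rfl, (h4 p _).2 rfl⟩

theorem mem_uniF {F F' : ℕ → ℕ → A} (k : ℕ) (hF : IsFN F) (hF' : IsFN F') :
    ∀ᶠ g in ae A, ∀ p m, uniF F F' k p m ∈ g ↔
      (if k ≤ p then dS (fv F g p) ∪ dS (fv F' g p) else dS (fv F g p)) = dS m := by
  have e2 : ∀ᶠ g in ae A, ∀ p m : ℕ, uniF F F' k p m ∈ g ↔
      ∃ i, (⨆ j, ⨆ _ : (if k ≤ p then dS i ∪ dS j else dS i) = dS m, F p i ⊓ F' p j) ∈ g :=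
    ae_all fun p => ae_all fun m => ae_iSup _
  have e3 : ∀ᶠ g in ae A, ∀ p m i : ℕ,
      (⨆ j, ⨆ _ : (if k ≤ p then dS i ∪ dS j else dS i) = dS m, F p i ⊓ F' p j) ∈ g ↔
      ∃ j, (⨆ _ : (if k ≤ p then dS i ∪ dS j else dS i) = dS m, F p i ⊓ F' p j) ∈ g :=
    ae_all fun p => ae_all fun m => ae_all fun i => ae_iSup _
  filter_upwards [e2, e3, mem_fv hF, mem_fv hF'] with g h2 h3 h4 h5 p m
  rw [h2]
  constructor
  · rintro ⟨i, hi⟩
    rw [h3] at hi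
    obtain ⟨j, hj⟩ := hi
    rw [mem_iSup_prop, g.mem_inf] at hj
    rw [(h4 p i).1 hj.2.1, (h5 p j).1 hj.2.2]
    exact hj.1
  · intro he
    refine ⟨fv F g p, (h3 _ _ _).2 ⟨fv F' g p, ?_⟩⟩
    rw [mem_iSup_prop, g.mem_inf]
    exact ⟨he, (h4 p _).2 rfl, (h5 p _).2 rfl⟩

theorem dS_surj (s : Finset ℕ) : ∃ m, dS m = s :=
  ⟨Finset.equivBitIndices.symm s, by simp [dS]⟩

theorem dS_inj {m n : ℕ} (h : dS m = dS n) : m = n := Finset.equivBitIndices.injective h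

theorem uniF_fn {F F' : ℕ → ℕ → A} (k : ℕ) (hF : IsFN F) (hF' : IsFN F') :
    IsFN (uniF F F' k) := by
  filter_upwards [mem_uniF k hF hF'] with g hg p
  obtain ⟨m, hm⟩ := dS_surj (if k ≤ p then dS (fv F g p) ∪ dS (fv F' g p) else dS (fv F g p))
  refine ⟨m, (hg p m).2 hm.symm, fun m' hm' => ?_⟩
  exact dS_inj (((hg p m').1 hm').symm.trans hm.symm)

theorem uniF_val {F F' : ℕ → ℕ → A} (k : ℕ) (hF : IsFN F) (hF' : IsFN F') :
    ∀ᶠ g in ae A, ∀ p, dS (fv (uniF F F' k) g p) =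
      if k ≤ p then dS (fv F g p) ∪ dS (fv F' g p) else dS (fv F g p) := by
  filter_upwards [mem_uniF k hF hF', mem_fv (uniF_fn k hF hF')] with g hg h2 p
  exact ((hg p _).1 ((h2 p _).2 rfl)).symm

theorem mem_gcF (N : Set El.{u}) (hN : N.Countable) (S : ℕ → ℕ → A) :
    ∀ᶠ g in ae A, gcF N S ∈ g ↔ gen A N ∈ g ∧
      ∀ F : ℕ → ℕ → A, In N F → IsFN F → (∃ j, SlF j ⊤ F) → ∃ n, capF n S F ∈ g := by
  have hc := countable_in N hN (ℕ → ℕ → A) fun F => IsFN F ∧ ∃ j, SlF j ⊤ F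
  have e0 : gcF N S = gen A N ⊓ ⨅ F : {F : ℕ → ℕ → A // In N F ∧ IsFN F ∧ ∃ j, SlF j ⊤ F},
      ⨆ n, capF n S F.1 := by
    unfold gcF
    congr 1
    refine le_antisymm (le_iInf fun F => ?_) (le_iInf fun F => le_iInf fun h1 => le_iInf fun h2 => ?_)
    · exact (iInf_le _ F.1).trans ((iInf_le _ F.2.1).trans (iInf_le _ F.2.2))
    · exact iInf_le_of_le ⟨F, h1, h2⟩ le_rfl
  have e1 := ae_iInf (A := A) fun F : {F : ℕ → ℕ → A // In N F ∧ IsFN F ∧ ∃ j, SlF j ⊤ F} =>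
    ⨆ n, capF n S F.1
  have e2 : ∀ᶠ g in ae A, ∀ F : {F : ℕ → ℕ → A // In N F ∧ IsFN F ∧ ∃ j, SlF j ⊤ F},
      (⨆ n, capF n S F.1) ∈ g ↔ ∃ n, capF n S F.1 ∈ g := ae_all fun F => ae_iSup _
  filter_upwards [e1, e2] with g h1 h2
  rw [e0, g.mem_inf, h1]
  refine and_congr_right fun _ => ?_
  constructor
  · intro h F hF1 hF2 hF3
    exact (h2 ⟨F, hF1, hF2, hF3⟩).1 (h ⟨F, hF1, hF2, hF3⟩)
  · intro h F
    exact (h2 F).2 (h F.1 F.2.1 F.2.2.1 F.2.2.2)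

end

/-- ITPF. -/
theorem itpf : ItpfStatement.{u} := by
  intro A C _ _ f hf
  obtain ⟨ftop, fbot, finf, fsup, -, -, -, fnS, fnI, -, hadj, -, pmono, -, -, -, plin, pbot, -⟩ :=
    all_alg A C f hf
  refine ⟨?_, ?_, ?_, ?_, ?_, ?_, ?_, ?_, ?_, ?_, ?_, ?_⟩
  · exact fun Z F k hZ hF => mem_agrF' f k (isFN_map hf hZ) hF
  · exact fun Z F k k' hk => agrF_anti f Z F hk
  · exact fun c F Z => (iInf_le _ 0).trans (pmono _ _ inf_le_left)
  · exact fun c c' F Z hc => iInf_mono fun k => pmono _ _ (inf_le_inf_right _ hc)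
  · intro c F Z a
    unfold itpF
    rw [iInf_inf]
    refine iInf_congr fun k => ?_
    rw [inf_right_comm, plin]
  · intro c F Z Y k hF hZ hY hc
    refine (iInf_le _ k).trans ?_
    rw [hadj]
    refine le_of_ae ?_
    have e1 := ae_pull hf (mem_agrF' (fun a : A => a) k hY hZ)
    filter_upwards [e1, mem_agrF' f k (isFN_map hf hZ) hF, mem_agrF' f k (isFN_map hf hY) hF]
      with h h1 h2 h3 hh
    rw [h.mem_inf] at hh
    have h4 := h2.1 hh.2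
    have h5 := h3.1 (h.mono hc hh.1)
    exact h1.2 fun p hp => (h5 p hp).trans (h4 p hp).symm
  · intro c F Z j hF hZ hs
    have key : ∀ p, itpF f c F Z ⊓ (⨆ m, ⨆ _ : (p + 2) ^ j < (dS m).card, Z p m) = ⊥ := by
      intro p
      set b : A := ⨆ m, ⨆ _ : (p + 2) ^ j < (dS m).card, Z p m with hb
      have h1 : itpF f c F Z ≤ prj f (c ⊓ agrF f Z F (p + 1)) := iInf_le _ (p + 1)
      refine le_bot_iff.1 ((inf_le_inf_right _ h1).trans ?_)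
      rw [← plin, le_bot_iff, pbot, ← le_bot_iff]
      refine le_of_ae ?_
      have e1 := ae_pull hf (ae_iSup fun m => ⨆ _ : (p + 2) ^ j < (dS m).card, Z p m)
      filter_upwards [hs, e1, mem_agrF' f (p + 1) (isFN_map hf hZ) hF,
        mem_fv (isFN_map hf hZ)] with h h1 h2 h3 h4 hh
      exfalso
      rw [h.mem_inf, h.mem_inf] at hh
      have h5 := h1 hh.1.1 p
      have h6 := h3.1 hh.1.2 p (Nat.lt_succ_self p)
      obtain ⟨m, hm⟩ := h2.1 hh.2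
      rw [mem_iSup_prop] at hm
      have h7 := (h4 p m).1 hm.2
      rw [← h6, h7] at h5
      exact absurd hm.1 (not_lt.2 h5)
    have e1 : ∀ᶠ g in ae A, ∀ p : ℕ, (⨆ m, ⨆ _ : (p + 2) ^ j < (dS m).card, Z p m) ∈ g ↔
      ∃ m, (⨆ _ : (p + 2) ^ j < (dS m).card, Z p m) ∈ g := ae_all fun p => ae_iSup _
    filter_upwards [e1, mem_fv hZ] with g h1 h2 hg p
    by_contra hcon
    push Not at hcon
    have h3 : (⨆ m, ⨆ _ : (p + 2) ^ j < (dS m).card, Z p m) ∈ g :=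
      (h1 p).2 ⟨fv Z g p, (mem_iSup_prop _ _ _).2 ⟨hcon, (h2 p _).2 rfl⟩⟩
    have h4 := g.inf _ _ hg h3
    rw [key p] at h4
    exact g.not_bot h4
  · exact fun Z hZ => isFN_map hf hZ
  · intro n S F
    have fP : ∀ (P : Prop) (a : A), f (⨆ _ : P, a) = ⨆ _ : P, f a := by
      intro P a
      by_cases h : P
      · simp [h]
      · simp [h, fbot]
    have fQ : ∀ (P : Prop) (a : A), f (⨅ _ : P, a) = ⨅ _ : P, f a := by
      intro P a
      by_cases h : P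
      · simp [h]
      · simp [h, ftop]
    unfold capF
    simp only [fnI, fnS, fP, fQ, finf]
  · exact fun n S F hS hF => mem_capF n hS hF
  · exact fun F F' k hF hF' => ⟨uniF_fn k hF hF', uniF_val k hF hF'⟩
  · exact fun N hN S => mem_gcF N hN S

end Pool.Agent.Lib.MP_a78e1f_lc.H92
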